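import Pool.Agent.Helper55.RG.Spec

set_option autoImplicit false

open FF Polynomial Pool.Agent.Helper55.RG

namespace Pool.Agent.Helper72.RG.CST

variable {κ Ω : Type} [Field κ] [Field Ω] [Algebra κ Ω]

/-- a linear functional applied coefficientwise -/
def comp (φ : Ω →ₗ[κ] κ) (f : LaurentSeries Ω) : LaurentSeries κ where
  coeff n := φ (f.coeff n)
  isPWO_support' := by
    apply f.isPWO_support.mono
    intro n hn
    rw [Function.mem_support] at hn
    rw [HahnSeries.mem_support]
    intro h
    exact hn (by rw [h, map_zero])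

theorem comp_coeff (φ : Ω →ₗ[κ] κ) (f : LaurentSeries Ω) (n : ℤ) :
    (comp φ f).coeff n = φ (f.coeff n) := rfl

theorem comp_mul (φ : Ω →ₗ[κ] κ) (h : LaurentSeries κ) (f : LaurentSeries Ω) :
    comp φ (lmap κ Ω h * f) = h * comp φ f := by
  ext n
  have hs1 : (lmap κ Ω h).support ⊆ h.support := by
    intro m hm
    rw [HahnSeries.mem_support] at hm ⊢
    intro h0
    exact hm (by rw [lmap_coeff, h0, map_zero])
  have hs2 : (comp φ f).support ⊆ f.support := by
    intro m hm
    rw [HahnSeries.mem_support] at hm ⊢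
    intro h0
    exact hm (by rw [comp_coeff, h0, map_zero])
  rw [comp_coeff, HahnSeries.coeff_mul_left' h.isPWO_support hs1,
    HahnSeries.coeff_mul_right' f.isPWO_support hs2, map_sum]
  apply Finset.sum_congr rfl
  intro ij _
  rw [lmap_coeff, comp_coeff, ← Algebra.smul_def, map_smul, smul_eq_mul]

theorem comp_mem (A : Subfield (LaurentSeries κ))
    (hA : ∀ c : κ, HahnSeries.C c ∈ A) (f : LaurentSeries Ω)
    (hf : f ∈ Submodule.span Ω (lmap κ Ω '' A)) : ∀ φ : Ω →ₗ[κ] κ, comp φ f ∈ A := by
  induction hf using Submodule.span_induction with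
  | mem x hx =>
    intro φ
    obtain ⟨a, ha, rfl⟩ := hx
    have h1 : comp φ (lmap κ Ω a) = a * HahnSeries.C (φ 1) := by
      ext n
      rw [comp_coeff, lmap_coeff, Algebra.algebraMap_eq_smul_one, map_smul, smul_eq_mul]
      have h := HahnSeries.coeff_mul_single_add (r := φ 1) (x := a) (a := n) (b := (0 : ℤ))
      rw [add_zero] at h
      exact h.symm
    rw [h1]
    exact A.mul_mem ha (hA _)
  | zero =>
    intro φ
    have h1 : comp φ (0 : LaurentSeries Ω) = 0 := by
      ext n
      rw [comp_coeff]
      simp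
    rw [h1]
    exact A.zero_mem
  | add x y _ _ hx hy =>
    intro φ
    have h1 : comp φ (x + y) = comp φ x + comp φ y := by
      ext n
      simp only [comp_coeff, HahnSeries.coeff_add, map_add]
    rw [h1]
    exact A.add_mem (hx φ) (hy φ)
  | smul c x _ hx =>
    intro φ
    have h1 : comp φ (c • x) = comp (φ ∘ₗ LinearMap.mulLeft κ c) x := by
      ext n
      simp only [comp_coeff, HahnSeries.coeff_smul, LinearMap.comp_apply, LinearMap.mulLeft_apply,
        smul_eq_mul]
    rw [h1]
    exact hx _

theorem main : S_CST := by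
  intro κ Ω _ _ _ A hA p q hp hq hq0 h hpq
  have hn : ∃ n : ℤ, q.coeff n ≠ 0 := by
    by_contra hcon
    push Not at hcon
    apply hq0
    ext n
    rw [hcon n]
    rfl
  obtain ⟨n, hn⟩ := hn
  let b := Module.Basis.ofVectorSpace κ Ω
  have hi : ∃ i, b.repr (q.coeff n) i ≠ 0 := by
    by_contra hcon
    push Not at hcon
    apply hn
    apply (b.repr.map_eq_zero_iff).1
    ext i
    exact hcon i
  obtain ⟨i, hi⟩ := hi
  have h0 : comp (b.coord i) q ≠ 0 := by
    intro h0
    have h1 : (comp (b.coord i) q).coeff n = 0 := by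
      rw [h0]
      rfl
    rw [comp_coeff, Module.Basis.coord_apply] at h1
    exact hi h1
  have h1 := comp_mul (b.coord i) h q
  rw [hpq] at h1
  have h2 : h = comp (b.coord i) p / comp (b.coord i) q := by
    rw [h1, mul_div_cancel_right₀ _ h0]
  rw [h2]
  exact A.div_mem (comp_mem A hA p hp _) (comp_mem A hA q hq _)

end Pool.Agent.Helper72.RG.CST
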