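import Pool.Agent.Helper55.RG.Spec

set_option autoImplicit false

open FF Polynomial Pool.Agent.Helper55.RG

namespace Pool.Agent.Helper72.RG.DEQ

section
variable {Ω N M : Type} [Field Ω] [Field N] [Algebra Ω N] [Field M] (j : N →+* M) (D : N → M)
  (hadd : ∀ x y, D (x + y) = D x + D y) (hmul : ∀ x y, D (x * y) = j x * D y + j y * D x)

include hadd in
theorem d_zero : D 0 = 0 := by
  have h := hadd 0 0
  rw [add_zero] at h
  have h2 : D 0 + 0 = D 0 + D 0 := by rw [add_zero]; exact h
  exact (add_left_cancel h2).symm

include hadd in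
theorem d_neg (x : N) : D (-x) = - D x := by
  have h := hadd x (-x)
  rw [add_neg_cancel, d_zero D hadd] at h
  exact (neg_eq_of_add_eq_zero_right h.symm).symm

include hadd hmul in
theorem d_one : D 1 = 0 := by
  have h := hmul 1 1
  rw [mul_one, map_one, one_mul] at h
  have h2 : D 1 + 0 = D 1 + D 1 := by rw [add_zero]; exact h
  exact (add_left_cancel h2).symm

include hadd hmul in
theorem d_inv {x : N} (hx : D x = 0) : D x⁻¹ = 0 := by
  by_cases h0 : x = 0
  · rw [h0, inv_zero]
    exact d_zero D hadd
  · have h := hmul x x⁻¹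
    rw [mul_inv_cancel₀ h0, d_one j D hadd hmul, hx, mul_zero, add_zero] at h
    rcases mul_eq_zero.1 h.symm with h1 | h1
    · exact absurd ((map_eq_zero j).1 h1) h0
    · exact h1

/-- the field of constants -/
def ker (hc : ∀ c : Ω, D (algebraMap Ω N c) = 0) : IntermediateField Ω N where
  carrier := {x | D x = 0}
  mul_mem' := by
    intro a b ha hb
    show D (a * b) = 0
    have ha' : D a = 0 := ha
    have hb' : D b = 0 := hb
    rw [hmul, ha', hb', mul_zero, mul_zero, add_zero]
  add_mem' := by
    intro a b ha hb
    show D (a + b) = 0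
    have ha' : D a = 0 := ha
    have hb' : D b = 0 := hb
    rw [hadd, ha', hb', add_zero]
  algebraMap_mem' := hc
  inv_mem' := fun x hx => d_inv j D hadd hmul hx

include hadd hmul in
theorem d_pow (x : N) (n : ℕ) : D (x ^ n) = n * j x ^ (n - 1) * D x := by
  induction n with
  | zero => simp [d_one j D hadd hmul]
  | succ n ih =>
    rw [pow_succ, hmul, ih]
    rcases Nat.eq_zero_or_pos n with hn | hn
    · subst hn
      simp
    · have h1 : j x ^ (n + 1 - 1) = j x ^ (n - 1) * j x := by
        rw [← pow_succ]
        congr 1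
        omega
      rw [h1, map_pow]
      have h2 : j x ^ n = j x ^ (n - 1) * j x := by
        rw [← pow_succ]
        congr 1
        omega
      rw [h2]
      push_cast
      ring

theorem d_aeval (hc : ∀ c : Ω, D (algebraMap Ω N c) = 0) (x : N)
    (p : (ker j D hadd hmul hc)[X]) :
    D (aeval x p) = j (aeval x (derivative p)) * D x := by
  induction p using Polynomial.induction_on' with
  | add p q hp hq => rw [map_add, hadd, hp, hq, derivative_add, map_add, map_add, add_mul]
  | monomial n a =>
    have ha : D (a : N) = 0 := a.2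
    rw [aeval_monomial, derivative_monomial, aeval_monomial, hmul, d_pow j D hadd hmul]
    have e : algebraMap (ker j D hadd hmul hc) N a = (a : N) := rfl
    rw [e, ha, mul_zero, add_zero, map_mul (algebraMap (ker j D hadd hmul hc) N), e, map_natCast,
      map_mul, map_mul, map_pow, map_natCast]
    ring

theorem d_alg [CharZero Ω] (hc : ∀ c : Ω, D (algebraMap Ω N c) = 0) (x : N)
    (hx : IsAlgebraic (ker j D hadd hmul hc) x) : D x = 0 := by
  have hx' := hx.isIntegral
  have : CharZero (ker j D hadd hmul hc) :=
    charZero_of_injective_algebraMap (algebraMap Ω (ker j D hadd hmul hc)).injective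
  have hsep : (minpoly (ker j D hadd hmul hc) x).Separable := (minpoly.irreducible hx').separable
  have h1 := d_aeval j D hadd hmul hc x (minpoly (ker j D hadd hmul hc) x)
  rw [minpoly.aeval, d_zero D hadd] at h1
  have h2 : aeval x (derivative (minpoly (ker j D hadd hmul hc) x)) ≠ 0 := by
    have := hsep.aeval_derivative_ne_zero (minpoly.aeval _ x)
    exact this
  rcases mul_eq_zero.1 h1.symm with h3 | h3
  · exact absurd ((map_eq_zero j).1 h3) h2
  · exact h3
end

theorem main : S_DEQ := by
  intro Ω N M _ _ _ _ _ _ π hπ j D hadd hmul hc hDπ x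
  apply d_alg j D hadd hmul hc x
  have halg : Algebra.IsAlgebraic (IntermediateField.adjoin Ω {π}) N := IsFF.isAlgebraic hπ
  have hle : IntermediateField.adjoin Ω {π} ≤ ker j D hadd hmul hc := by
    rw [IntermediateField.adjoin_le_iff]
    intro y hy
    rw [Set.mem_singleton_iff] at hy
    subst hy
    exact hDπ
  let : Algebra (IntermediateField.adjoin Ω {π}) (ker j D hadd hmul hc) :=
    (IntermediateField.inclusion hle).toRingHom.toAlgebra
  have : IsScalarTower (IntermediateField.adjoin Ω {π}) (ker j D hadd hmul hc) N :=
    IsScalarTower.of_algebraMap_eq (fun _ => rfl)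
  exact (halg.isAlgebraic x).extendScalars (RingHom.injective _)

end Pool.Agent.Helper72.RG.DEQ
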