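import Pool.Agent.Helper55.RG.Spec

set_option autoImplicit false

open FF Polynomial Pool.Agent.Helper55.RG

namespace Pool.Agent.Helper72.RG.IND

theorem gen {κ Ω ι : Type} [Field κ] [Field Ω] [Algebra κ Ω] [Fintype ι]
    (v : ι → LaurentSeries κ) (hv : LinearIndependent κ v) :
    LinearIndependent Ω fun l => lmap κ Ω (v l) := by
  rw [Fintype.linearIndependent_iff] at hv ⊢
  intro c hc l
  let b := Module.Basis.ofVectorSpace κ Ω
  have hcoef : ∀ n : ℤ, ∑ l, c l * algebraMap κ Ω ((v l).coeff n) = 0 := by
    intro n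
    have h := congrArg (fun f : LaurentSeries Ω => f.coeff n) hc
    simp only [HahnSeries.coeff_sum, HahnSeries.coeff_zero, HahnSeries.coeff_smul, smul_eq_mul,
      lmap_coeff] at h
    exact h
  have hrep : ∀ i, b.repr (c l) i = 0 := by
    intro i
    refine hv (fun l => b.repr (c l) i) ?_ l
    ext n
    have h := congrArg (fun x : Ω => b.repr x i) (hcoef n)
    have e : ∀ l, c l * algebraMap κ Ω ((v l).coeff n) = (v l).coeff n • c l := by
      intro l
      rw [Algebra.smul_def, mul_comm]
    simp only [e, map_sum, map_smul, Finsupp.coe_finsetSum, Finset.sum_apply, Finsupp.smul_apply,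
      smul_eq_mul, map_zero, Finsupp.coe_zero, Pi.zero_apply] at h
    simp only [HahnSeries.coeff_sum, HahnSeries.coeff_zero, HahnSeries.coeff_smul, smul_eq_mul]
    rw [← h]
    apply Finset.sum_congr rfl
    intro l _
    rw [mul_comm]
  have : b.repr (c l) = 0 := by
    ext i
    exact hrep i
  exact (b.repr.map_eq_zero_iff).1 this

theorem main : S_IND := by
  intro κ Ω _ _ _ q v hv
  exact gen v hv

end Pool.Agent.Helper72.RG.IND
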