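import Pool.Agent.Helper55.RG.Spec

set_option autoImplicit false

open FF Polynomial Pool.Agent.Helper55.RG

namespace Pool.Agent.Helper72.RG.LEI

/-- a family of maps applied coefficientwise -/
def tmap {Ω : Type} [Field Ω] (T : ℤ → Ω → Ω) (T0 : ∀ n, T n 0 = 0) (f : LaurentSeries Ω) :
    LaurentSeries Ω where
  coeff n := T n (f.coeff n)
  isPWO_support' := by
    apply f.isPWO_support.mono
    intro n hn
    rw [Function.mem_support] at hn
    rw [HahnSeries.mem_support]
    intro h
    exact hn (by rw [h, T0])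

theorem tmap_coeff {Ω : Type} [Field Ω] (T : ℤ → Ω → Ω) (T0 : ∀ n, T n 0 = 0)
    (f : LaurentSeries Ω) (n : ℤ) : (tmap T T0 f).coeff n = T n (f.coeff n) := rfl

theorem mk {Ω : Type} [Field Ω] (T : ℤ → Ω → Ω) (T0 : ∀ n, T n 0 = 0)
    (Tadd : ∀ n a b, T n (a + b) = T n a + T n b)
    (Tmul : ∀ i j a b, T (i + j) (a * b) = a * T j b + b * T i a) :
    ∃ d : Derivation ℤ (LaurentSeries Ω) (LaurentSeries Ω), ∀ f n, (d f).coeff n = T n (f.coeff n) := by
  let D : LaurentSeries Ω →+ LaurentSeries Ω :=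
    { toFun := tmap T T0
      map_zero' := by
        ext n
        rw [tmap_coeff]
        simp [T0]
      map_add' := by
        intro f g
        ext n
        rw [HahnSeries.coeff_add, tmap_coeff, tmap_coeff, tmap_coeff, HahnSeries.coeff_add, Tadd] }
  refine ⟨Derivation.mk' (@LinearMap.mk ℤ ℤ _ _ (RingHom.id ℤ) (LaurentSeries Ω) (LaurentSeries Ω)
    _ _ Algebra.toModule _ ⟨tmap T T0, D.map_add⟩ ?_) ?_, fun f n => rfl⟩
  · intro c f
    have h1 : tmap T T0 ((c : LaurentSeries Ω) * f) = c • tmap T T0 f := by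
      have h2 : D (c • f) = c • D f := map_zsmul D c f
      rw [zsmul_eq_mul] at h2
      exact h2
    rw [Algebra.smul_def, eq_intCast]
    exact h1
  intro f g
  ext n
  have hsf : (tmap T T0 f).support ⊆ f.support := by
    intro m hm
    rw [HahnSeries.mem_support] at hm ⊢
    intro h
    exact hm (by rw [tmap_coeff, h, T0])
  have hsg : (tmap T T0 g).support ⊆ g.support := by
    intro m hm
    rw [HahnSeries.mem_support] at hm ⊢
    intro h
    exact hm (by rw [tmap_coeff, h, T0])
  show T n ((f * g).coeff n) = (f • tmap T T0 g + g • tmap T T0 f).coeff n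
  rw [smul_eq_mul, smul_eq_mul, mul_comm g, HahnSeries.coeff_add, HahnSeries.coeff_mul,
    HahnSeries.coeff_mul_right' g.isPWO_support hsg, HahnSeries.coeff_mul_left' f.isPWO_support hsf,
    ← Finset.sum_add_distrib]
  let Tn : Ω →+ Ω := { toFun := T n, map_zero' := T0 n, map_add' := Tadd n }
  show Tn _ = _
  rw [map_sum]
  apply Finset.sum_congr rfl
  intro ij hij
  have hn : ij.1 + ij.2 = n := (Finset.mem_antidiagonal.1 hij).2.2
  show T n _ = _
  rw [← hn, Tmul, tmap_coeff, tmap_coeff]
  ring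

theorem main : S_LEI := by
  intro Ω _ δ
  refine ⟨mk (fun _ => δ) (fun _ => map_zero δ) (fun _ => map_add δ) (fun _ _ a b => ?_), ?_⟩
  · rw [Derivation.leibniz, smul_eq_mul, smul_eq_mul]
  · obtain ⟨θ, hθ⟩ := mk (Ω := Ω) (fun n a => n • a) (fun n => smul_zero n) (fun n a b => smul_add n a b)
      (fun i j a b => by
        rw [add_smul]
        simp only [zsmul_eq_mul]
        ring)
    refine ⟨(HahnSeries.single (-1 : ℤ) (1 : Ω)) • θ, fun f n => ?_⟩
    rw [Derivation.smul_apply, smul_eq_mul, mul_comm]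
    have h := HahnSeries.coeff_mul_single_add (r := (1 : Ω)) (x := θ f) (a := n + 1) (b := (-1 : ℤ))
    rw [add_neg_cancel_right, mul_one, hθ] at h
    exact h

end Pool.Agent.Helper72.RG.LEI
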