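import Pool.Agent.Helper55.RG.Spec
import Pool.Agent.Helper72.RG.IND

set_option autoImplicit false

open FF Polynomial Pool.Agent.Helper55.RG TensorProduct

namespace Pool.Agent.Helper72.RG.LOS

theorem C_alg {κ : Type} [Field κ] (c : κ) :
    HahnSeries.C (algebraMap κ (UP κ) c) = algebraMap κ (LaurentSeries (UP κ)) c := by
  rw [HahnSeries.algebraMap_apply']
  erw [MvPowerSeries.algebraMap_apply, HahnSeries.ofPowerSeries_C]

theorem main : S_LOS := by
  intro κ N₀ _ _ _ j hj
  -- the two algebra maps
  let f : (ℕ → κ) →ₐ[κ] LaurentSeries (UP κ) :=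
    { (HahnSeries.C (Γ := ℤ) (R := UP κ)).comp (UP.mk κ) with
      commutes' := by
        intro c
        show HahnSeries.C (algebraMap κ (UP κ) c) = _
        exact C_alg c }
  let g : N₀ →ₐ[κ] LaurentSeries (UP κ) :=
    { (lmap κ (UP κ)).comp j with
      commutes' := by
        intro c
        show lmap κ (UP κ) (j (algebraMap κ N₀ c)) = _
        rw [hj, lmap_C]
        exact C_alg c }
  let Φ := Algebra.TensorProduct.productMap f g
  have hΦ : ∀ r x, Φ (r ⊗ₜ x) = HahnSeries.C (UP.mk κ r) * lmap κ (UP κ) (j x) := by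
    intro r x
    exact Algebra.TensorProduct.productMap_apply_tmul f g r x
  let ev : ℕ → ((ℕ → κ) ⊗[κ] N₀) →ₐ[κ] N₀ := fun i =>
    Algebra.TensorProduct.productMap ((Algebra.ofId κ N₀).comp (Pi.evalAlgHom κ (fun _ : ℕ => κ) i))
      (AlgHom.id κ N₀)
  have hev : ∀ i r x, ev i (r ⊗ₜ x) = r i • x := by
    intro i r x
    rw [Algebra.smul_def]
    exact Algebra.TensorProduct.productMap_apply_tmul _ _ r x
  refine ⟨Φ.toRingHom, hΦ, fun i => (ev i).toRingHom, hev, ?_⟩
  intro u
  show Φ u = 0 ↔ ∀ᶠ i in (Filter.hyperfilter ℕ : Filter ℕ), ev i u = 0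
  let b := Module.Basis.ofVectorSpace κ N₀
  let B := Algebra.TensorProduct.basis (ℕ → κ) b
  set s := (B.repr u).support with hs
  have hu : u = ∑ l ∈ s, (B.repr u l) ⊗ₜ[κ] b l := by
    conv_lhs => rw [← B.linearCombination_repr u]
    rw [Finsupp.linearCombination_apply, Finsupp.sum]
    apply Finset.sum_congr rfl
    intro l _
    rw [Algebra.TensorProduct.basis_apply, TensorProduct.smul_tmul']
    simp
  have hbj : LinearIndependent κ (fun l : s => j (b (l : _))) := by
    let jl : N₀ →ₗ[κ] LaurentSeries κ :=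
      { toFun := j
        map_add' := map_add j
        map_smul' := by
          intro c x
          rw [Algebra.smul_def, map_mul, hj, RingHom.id_apply, HahnSeries.C_mul_eq_smul] }
    have h1 : LinearIndependent κ (fun l : s => b (l : _)) :=
      b.linearIndependent.comp _ Subtype.val_injective
    exact h1.map' jl (LinearMap.ker_eq_bot.2 j.injective)
  have hlm := IND.gen (Ω := UP κ) _ hbj
  rw [Fintype.linearIndependent_iff] at hlm
  have h1 : Φ u = 0 ↔ ∀ l ∈ s, UP.mk κ (B.repr u l) = 0 := by
    have e : Φ u = ∑ l : s, UP.mk κ (B.repr u l) • lmap κ (UP κ) (j (b l)) := by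
      conv_lhs => rw [hu]
      rw [map_sum, ← Finset.sum_coe_sort]
      apply Finset.sum_congr rfl
      intro l _
      rw [hΦ, HahnSeries.C_mul_eq_smul]
    rw [e]
    constructor
    · intro h l hl
      exact hlm _ h ⟨l, hl⟩
    · intro h
      apply Finset.sum_eq_zero
      intro l _
      rw [h l l.2, zero_smul]
  have h2 : ∀ i, ev i u = 0 ↔ ∀ l ∈ s, B.repr u l i = 0 := by
    intro i
    have e : ev i u = ∑ l ∈ s, (B.repr u l i) • b l := by
      conv_lhs => rw [hu]
      rw [map_sum]
      apply Finset.sum_congr rfl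
      intro l _
      rw [hev]
    rw [e]
    constructor
    · intro h l hl
      exact linearIndependent_iff'.1 b.linearIndependent s _ h l hl
    · intro h
      apply Finset.sum_eq_zero
      intro l hl
      rw [h l hl, zero_smul]
  rw [h1]
  simp only [h2, UP.mk_eq_zero]
  exact (Filter.eventually_all_finset s).symm

end Pool.Agent.Helper72.RG.LOS
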