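import Pool.Agent.Helper55.RG.Spec

set_option autoImplicit false

open FF Polynomial Pool.Agent.Helper55.RG

namespace Pool.Agent.Helper72.RG.REC

theorem main : S_REC := by
  intro κ Ω _ _ _ hκ W hW hW0 hst
  have key : ∀ (d : ℕ) (W : Submodule Ω (LaurentSeries Ω)), FiniteDimensional Ω W →
      Module.finrank Ω W = d → W ≠ ⊥ →
      (∀ (δ : Derivation κ Ω Ω), ∀ f ∈ W, ∃ f' ∈ W, ∀ n : ℤ, f'.coeff n = δ (f.coeff n)) →
      ∃ f : LaurentSeries κ, f ≠ 0 ∧ lmap κ Ω f ∈ W := by
    intro d
    induction d using Nat.strong_induction_on with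
    | _ d ih =>
      intro W hW hd hW0 hst
      obtain ⟨f₀, hf₀, hf₀0⟩ := (Submodule.ne_bot_iff W).1 hW0
      have hn : ∃ n₀ : ℤ, f₀.coeff n₀ ≠ 0 := by
        by_contra hcon
        push Not at hcon
        apply hf₀0
        ext n
        rw [hcon n]
        rfl
      obtain ⟨n₀, hn₀⟩ := hn
      -- the subspace of the series in `W` with vanishing coefficient
      let W' : Submodule Ω (LaurentSeries Ω) :=
        { carrier := {f | f ∈ W ∧ f.coeff n₀ = 0}
          add_mem' := by
            rintro a b ⟨ha, ha0⟩ ⟨hb, hb0⟩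
            refine ⟨W.add_mem ha hb, ?_⟩
            rw [HahnSeries.coeff_add, ha0, hb0, add_zero]
          zero_mem' := ⟨W.zero_mem, rfl⟩
          smul_mem' := by
            rintro c a ⟨ha, ha0⟩
            refine ⟨W.smul_mem c ha, ?_⟩
            rw [HahnSeries.coeff_smul, ha0, smul_zero] }
      have hle : W' ≤ W := fun f hf => hf.1
      have hlt : W' < W := by
        refine lt_of_le_of_ne hle ?_
        intro h
        rw [← h] at hf₀
        exact hn₀ hf₀.2
      have hst' : ∀ (δ : Derivation κ Ω Ω), ∀ f ∈ W', ∃ f' ∈ W', ∀ n : ℤ,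
          f'.coeff n = δ (f.coeff n) := by
        intro δ f hf
        obtain ⟨f', hf', h⟩ := hst δ f hf.1
        refine ⟨f', ⟨hf', ?_⟩, h⟩
        rw [h, hf.2, map_zero]
      by_cases hW' : W' = ⊥
      · -- `W` is a line
        set f : LaurentSeries Ω := (f₀.coeff n₀)⁻¹ • f₀ with hf
        have hfW : f ∈ W := W.smul_mem _ hf₀
        have hf1 : f.coeff n₀ = 1 := by
          rw [hf, HahnSeries.coeff_smul, smul_eq_mul, inv_mul_cancel₀ hn₀]
        have hδ : ∀ (n : ℤ) (δ : Derivation κ Ω Ω), δ (f.coeff n) = 0 := by
          intro n δ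
          obtain ⟨f', hf', h⟩ := hst δ f hfW
          have h1 : f' ∈ W' := by
            refine ⟨hf', ?_⟩
            rw [h, hf1]
            exact δ.map_one_eq_zero
          rw [hW', Submodule.mem_bot] at h1
          rw [← h, h1]
          rfl
        have hc : ∀ n : ℤ, ∃ c : κ, algebraMap κ Ω c = f.coeff n := fun n => hκ _ (hδ n)
        choose c hc using hc
        let g : LaurentSeries κ :=
          { coeff := c
            isPWO_support' := by
              apply f.isPWO_support.mono
              intro n hn
              rw [Function.mem_support] at hn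
              rw [HahnSeries.mem_support, ← hc]
              simpa using hn }
        have hg : lmap κ Ω g = f := by
          ext n
          rw [lmap_coeff]
          exact hc n
        refine ⟨g, ?_, hg ▸ hfW⟩
        intro h0
        have : f.coeff n₀ = 0 := by
          rw [← hg, h0, map_zero]
          rfl
        rw [hf1] at this
        exact one_ne_zero this
      · have hfin : FiniteDimensional Ω W' := Submodule.finiteDimensional_of_le hle
        obtain ⟨g, hg, hgW⟩ := ih (Module.finrank Ω W')
          (hd ▸ Submodule.finrank_lt_finrank_of_lt hlt) W' hfin rfl hW' hst'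
        exact ⟨g, hg, hle hgW⟩
  exact key _ W hW rfl hW0 hst

end Pool.Agent.Helper72.RG.REC
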