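import Pool.Agent.Helper55.RG.Spec

set_option autoImplicit false

open FF Polynomial Pool.Agent.Helper55.RG

namespace Pool.Agent.Helper72.RG.EST

section
variable {Ω : Type} [Field Ω]

/-- the coefficients below `m` vanish -/
def Ge (f : LaurentSeries Ω) (m : ℤ) : Prop := ∀ n, n < m → f.coeff n = 0

theorem ge_add {f g : LaurentSeries Ω} {m : ℤ} (hf : Ge f m) (hg : Ge g m) : Ge (f + g) m := by
  intro n hn
  rw [HahnSeries.coeff_add, hf n hn, hg n hn, add_zero]

theorem ge_mul {f g : LaurentSeries Ω} {m k : ℤ} (hf : Ge f m) (hg : Ge g k) :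
    Ge (f * g) (m + k) := by
  intro n hn
  rw [HahnSeries.coeff_mul]
  apply Finset.sum_eq_zero
  intro ij hij
  have h := (Finset.mem_antidiagonal.1 hij).2.2
  by_cases h1 : ij.1 < m
  · rw [hf _ h1, zero_mul]
  · rw [hg _ (by omega), mul_zero]

theorem ge_of_order {f : LaurentSeries Ω} {m : ℤ} (h : m ≤ f.order) : Ge f m := fun n hn =>
  HahnSeries.coeff_eq_zero_of_lt_order (by omega)

theorem order_ge {f : LaurentSeries Ω} {m : ℤ} (h0 : f ≠ 0) (h : Ge f m) : m ≤ f.order := by
  by_contra hcon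
  push Not at hcon
  have h1 := h _ hcon
  have h2 : f.coeff f.order ≠ 0 := by
    have := HahnSeries.coeff_order_eq_zero (x := f)
    intro h3
    exact h0 (this.1 h3)
  exact h2 h1
end

section
variable {Ω N : Type} [Field Ω] [CharZero Ω] [Field N] [Algebra Ω N] [IsFF Ω N]

theorem key (hDEQ : S_DEQ) (P : Place Ω N) (δ : Derivation ℤ Ω Ω) (D : Derivation ℤ N N)
    (hD : ∀ c : Ω, D (algebraMap Ω N c) = algebraMap Ω N (δ c)) (π : N) (hπ : P.ord π = 1)
    (j : N →+* LaurentSeries Ω) (hj1 : ∀ c : Ω, j (algebraMap Ω N c) = HahnSeries.C c)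
    (hj2 : j π = HahnSeries.single (1 : ℤ) (1 : Ω))
    (d₀ d₁ : Derivation ℤ (LaurentSeries Ω) (LaurentSeries Ω))
    (h0 : ∀ f n, (d₀ f).coeff n = δ (f.coeff n))
    (h1 : ∀ f n, (d₁ f).coeff n = (n + 1 : ℤ) • f.coeff (n + 1)) (x : N) :
    j (D x) = d₀ (j x) + j (D π) * d₁ (j x) := by
  have htr : Transcendental Ω π := by
    intro halg
    have hπ0 : π ≠ 0 := by
      rintro rfl
      rw [P.ord_zero] at hπ
      omega
    have := P.ord_eq_zero_of_isAlgebraic hπ0 halg
    omega
  have h := hDEQ Ω N (LaurentSeries Ω) π htr j (fun x => j (D x) - (d₀ (j x) + j (D π) * d₁ (j x)))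
    ?_ ?_ ?_ ?_ x
  · exact sub_eq_zero.1 h
  · intro x y
    simp only [map_add]
    ring
  · intro x y
    simp only [map_mul, Derivation.leibniz, smul_eq_mul, map_add]
    ring
  · intro c
    show j (D (algebraMap Ω N c)) - (d₀ (j (algebraMap Ω N c)) + j (D π) * d₁ (j (algebraMap Ω N c))) = 0
    rw [hD, hj1, hj1]
    have e0 : d₀ (HahnSeries.C c) = HahnSeries.C (δ c) := by
      ext n
      rw [h0, HahnSeries.C_apply, HahnSeries.C_apply, HahnSeries.coeff_single, HahnSeries.coeff_single]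
      split_ifs
      · rfl
      · rw [map_zero]
    have e1 : d₁ (HahnSeries.C c) = 0 := by
      ext n
      rw [h1, HahnSeries.C_apply, HahnSeries.coeff_single]
      split_ifs with hn
      · rw [hn, zero_smul]
        rfl
      · rw [smul_zero]
        rfl
    rw [e0, e1, mul_zero, add_zero, sub_self]
  · show j (D π) - (d₀ (j π) + j (D π) * d₁ (j π)) = 0
    rw [hj2]
    have e0 : d₀ (HahnSeries.single (1 : ℤ) (1 : Ω)) = 0 := by
      ext n
      rw [h0, HahnSeries.coeff_single]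
      split_ifs
      · rw [δ.map_one_eq_zero]
        rfl
      · rw [map_zero]
        rfl
    have e1 : d₁ (HahnSeries.single (1 : ℤ) (1 : Ω)) = 1 := by
      ext n
      rw [h1, HahnSeries.coeff_single, HahnSeries.coeff_one]
      by_cases hn : n = 0
      · subst hn
        simp
      · rw [if_neg (by omega), if_neg hn, smul_zero]
    rw [e0, e1, mul_one, zero_add, sub_self]

end

section
variable {Ω : Type} [Field Ω] (δ : Derivation ℤ Ω Ω)
  (d₀ d₁ : Derivation ℤ (LaurentSeries Ω) (LaurentSeries Ω))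
  (h0 : ∀ f n, (d₀ f).coeff n = δ (f.coeff n))
  (h1 : ∀ f n, (d₁ f).coeff n = (n + 1 : ℤ) • f.coeff (n + 1))

include h0 in
theorem ge_d0 {f : LaurentSeries Ω} {m : ℤ} (hf : Ge f m) : Ge (d₀ f) m := by
  intro n hn
  rw [h0, hf n hn, map_zero]

include h1 in
theorem ge_d1 {f : LaurentSeries Ω} {m : ℤ} (hf : Ge f m) : Ge (d₁ f) (m - 1) := by
  intro n hn
  rw [h1, hf (n + 1) (by omega), smul_zero]

include h1 in
theorem ge_d1_zero {f : LaurentSeries Ω} (hf : Ge f 0) : Ge (d₁ f) 0 := by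
  intro n hn
  rw [h1]
  by_cases hn1 : n = -1
  · subst hn1
    simp
  · rw [hf (n + 1) (by omega), smul_zero]
end

section
variable {Ω N : Type} [Field Ω] [CharZero Ω] [Field N] [Algebra Ω N] [IsFF Ω N]

omit [IsFF Ω N] in
theorem const_case (P : Place Ω N) (δ : Derivation ℤ Ω Ω) (D : Derivation ℤ N N) (π : N)
    (j : N →+* LaurentSeries Ω) (hj3 : ∀ x : N, x ≠ 0 → (j x).order = P.ord x)
    (d₀ d₁ : Derivation ℤ (LaurentSeries Ω) (LaurentSeries Ω))
    (h0 : ∀ f n, (d₀ f).coeff n = δ (f.coeff n))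
    (h1 : ∀ f n, (d₁ f).coeff n = (n + 1 : ℤ) • f.coeff (n + 1))
    (hk : ∀ x, j (D x) = d₀ (j x) + j (D π) * d₁ (j x)) (u : N) (hu : D u = 0)
    (hue : P.ord u ≠ 0) (hDπ : D π ≠ 0) : 1 ≤ P.ord (D π) := by
  have hu0 : u ≠ 0 := by
    rintro rfl
    exact hue P.ord_zero
  have hU0 : j u ≠ 0 := (map_ne_zero j).2 hu0
  have hUo := hj3 u hu0
  have hUc : (j u).coeff (P.ord u) ≠ 0 := by
    rw [← hUo]
    intro h
    exact hU0 (HahnSeries.coeff_order_eq_zero.1 h)
  have hd1c : (d₁ (j u)).coeff (P.ord u - 1) ≠ 0 := by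
    rw [h1, sub_add_cancel, zsmul_eq_mul]
    exact mul_ne_zero (Int.cast_ne_zero.2 hue) hUc
  have hd1ne : d₁ (j u) ≠ 0 := by
    intro h
    rw [h] at hd1c
    exact hd1c rfl
  have hd1o : (d₁ (j u)).order = P.ord u - 1 := by
    apply le_antisymm
    · exact HahnSeries.order_le_of_coeff_ne_zero hd1c
    · exact order_ge hd1ne (ge_d1 d₁ h1 (ge_of_order hUo.ge))
  have hWne : j (D π) ≠ 0 := (map_ne_zero j).2 hDπ
  have hWo := hj3 _ hDπ
  have hprod : (j (D π) * d₁ (j u)).order = P.ord (D π) + (P.ord u - 1) := by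
    rw [HahnSeries.order_mul hWne hd1ne, hWo, hd1o]
  have heq : j (D π) * d₁ (j u) = - d₀ (j u) := by
    have h := hk u
    rw [hu, map_zero] at h
    exact (neg_eq_of_add_eq_zero_right h.symm).symm
  have hge : Ge (j (D π) * d₁ (j u)) (P.ord u) := by
    rw [heq]
    intro n hn
    rw [HahnSeries.coeff_neg, ge_d0 δ d₀ h0 (ge_of_order hUo.ge) n hn, neg_zero]
  have h := order_ge (mul_ne_zero hWne hd1ne) hge
  rw [hprod] at h
  omega

end

/-! ### the value at a point -/

theorem ev2_hom {R S T : Type} [CommRing R] [CommRing S] [CommRing T] (f : S →+* T) (φ : R →+* S)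
    (t α : S) (g : R[X][X]) : f (ev2 φ t α g) = ev2 (f.comp φ) (f t) (f α) g := by
  unfold ev2
  rw [hom_eval₂]
  congr 1
  apply ringHom_ext
  · intro a
    simp
  · simp

theorem ev2_map {R S T : Type} [CommRing R] [CommRing S] [CommRing T] (ι : R →+* S) (φ : S →+* T)
    (t α : T) (g : R[X][X]) : ev2 φ t α (g.map (mapRingHom ι)) = ev2 (φ.comp ι) t α g := by
  unfold ev2
  rw [eval₂_map]
  congr 1
  apply ringHom_ext
  · intro a
    simp
  · simp

theorem ev2_id {S : Type} [CommRing S] (a b : S) (G : S[X][X]) :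
    (G.map (evalRingHom a)).eval b = ev2 (RingHom.id S) a b G := by
  unfold ev2
  rw [eval₂_eq_eval_map]
  rfl

section
variable {Ω N : Type} [Field Ω] [Field N] [Algebra Ω N]

theorem res_eq (P : Place Ω N) {t : N} (ht : P.Reg t) {a : Ω}
    (h : t = algebraMap Ω N a ∨ 0 < P.ord (t - algebraMap Ω N a)) :
    P.resHom ⟨t, ht⟩ = P.resHom ⟨algebraMap Ω N a, P.reg_const a⟩ := by
  have hr : P.Reg (t - algebraMap Ω N a) := by
    rw [sub_eq_add_neg]
    exact P.reg_add ht (P.reg_neg (P.reg_const a))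
  have h1 : P.red (t - algebraMap Ω N a) = 0 := by
    rw [P.red_eq_zero_iff hr]
    rcases h with h | h
    · left
      rw [h, sub_self]
    · right
      exact h
  rw [P.red_sub ht (P.reg_const a), P.red_of_reg ht, P.red_of_reg (P.reg_const a)] at h1
  exact sub_eq_zero.1 h1

theorem ev_point (P : Place Ω N) {t α : N} (ht : P.Reg t) (hα : P.Reg α) {a b : Ω}
    (h1 : t = algebraMap Ω N a ∨ 0 < P.ord (t - algebraMap Ω N a))
    (h2 : α = algebraMap Ω N b ∨ 0 < P.ord (α - algebraMap Ω N b)) (G : Polynomial (Polynomial Ω))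
    (hG : ev2 (algebraMap Ω N) t α G = 0) : ev2 (RingHom.id Ω) a b G = 0 := by
  let ψ : Ω →+* P.O := (algebraMap Ω N).codRestrict P.O P.reg_const
  have e1 : P.O.subtype (ev2 ψ ⟨t, ht⟩ ⟨α, hα⟩ G) = ev2 (algebraMap Ω N) t α G := by
    rw [ev2_hom]
    rfl
  have e2 : ev2 ψ ⟨t, ht⟩ ⟨α, hα⟩ G = 0 := by
    apply P.O.subtype_injective
    rw [e1, hG, map_zero]
  have e3 : P.resHom (ev2 ψ ⟨t, ht⟩ ⟨α, hα⟩ G) = (P.resHom.comp ψ) (ev2 (RingHom.id Ω) a b G) := by
    rw [ev2_hom, ev2_hom, res_eq P ht h1, res_eq P hα h2]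
    rfl
  rw [e2, map_zero] at e3
  exact (map_eq_zero _).1 e3.symm

end

theorem alg_range {κ Ω : Type} [Field κ] [IsAlgClosed κ] [Field Ω] [Algebra κ Ω] {a : Ω} {s : κ[X]}
    (hs : s ≠ 0) (h : eval₂ (algebraMap κ Ω) a s = 0) : a ∈ Set.range (algebraMap κ Ω) := by
  have halg : IsAlgebraic κ a := ⟨s, hs, h⟩
  exact minpoly.mem_range_of_degree_eq_one κ a
    (IsAlgClosed.degree_eq_one_of_irreducible κ (minpoly.irreducible halg.isIntegral))

theorem main (hVAL : S_VAL) (hEXP : S_EXP) (hUPL : S_UPL) (hDEQ : S_DEQ) (hLEI : S_LEI) :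
    S_EST := by
  intro κ Ω N _ _ _ _ _ _ _ _ _ t α htr hadj g A B s hs0 hgm hAB hg δ D hDt hDα hDc P
  have hcΩ : CharZero Ω := charZero_of_injective_algebraMap (algebraMap κ Ω).injective
  let δ' : Derivation ℤ Ω Ω := δ.restrictScalars ℤ
  obtain ⟨⟨d₀, h0⟩, d₁, h1⟩ := hLEI Ω δ'
  have hD0 : D 0 = 0 := map_zero D
  by_cases hcase : (P.ord t < 0 ∨ ∃ a : κ, 0 < P.ord (t - algebraMap Ω N (algebraMap κ Ω a)))
  · -- constant place
    obtain ⟨π, hπ0, hπ⟩ := P.surj
    obtain ⟨j, hj1, hj2, hj3⟩ := hEXP Ω N P π hπ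
    have hk := key hDEQ P δ' D hDc π hπ j hj1 hj2 d₀ d₁ h0 h1
    have hu : ∃ u : N, D u = 0 ∧ P.ord u ≠ 0 := by
      rcases hcase with h | ⟨a, h⟩
      · exact ⟨t, hDt, by omega⟩
      · refine ⟨t - algebraMap Ω N (algebraMap κ Ω a), ?_, by omega⟩
        rw [map_sub, hDt, hDc, Derivation.map_algebraMap, map_zero, sub_zero]
    obtain ⟨u, hu, hue⟩ := hu
    have hmain : ∀ x : N, D x ≠ 0 → P.ord x ≤ P.ord (D x) := by
      intro x hx
      have hx0 : x ≠ 0 := by
        rintro rfl
        exact hx hD0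
      have hxo := hj3 x hx0
      have hge : Ge (j (D x)) (P.ord x) := by
        rw [hk x]
        apply ge_add
        · exact ge_d0 δ' d₀ h0 (ge_of_order hxo.ge)
        · by_cases hDπ : D π = 0
          · rw [hDπ, map_zero, zero_mul]
            intro n _
            rfl
          · have h2 := const_case P δ' D π j hj3 d₀ d₁ h0 h1 hk u hu hue hDπ
            have h3 := ge_mul (ge_of_order (m := 1) (f := j (D π)) (by rw [hj3 _ hDπ]; exact h2))
              (ge_d1 d₁ h1 (ge_of_order hxo.ge))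
            have e : (1 : ℤ) + (P.ord x - 1) = P.ord x := by ring
            rwa [e] at h3
      have h4 := order_ge ((map_ne_zero j).2 hx) hge
      rwa [hj3 _ hx] at h4
    refine ⟨fun _ => hmain, ?_⟩
    intro x hx
    by_cases hDx : D x = 0
    · exact Or.inl hDx
    · right
      have hx0 : x ≠ 0 := by
        rintro rfl
        exact hDx hD0
      exact ((P.reg_iff hx0).1 hx).trans (hmain x hDx)
  · refine ⟨fun h => absurd h hcase, ?_⟩
    push Not at hcase
    obtain ⟨htn, hta⟩ := hcase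
    have htR : P.Reg t := Or.inr htn
    obtain ⟨a, ha⟩ := hVAL Ω N P t htR
    have ha0 : 0 < P.ord (t - algebraMap Ω N a) := by
      rcases ha with ha | ha
      · exfalso
        rw [ha] at htr
        exact htr (isAlgebraic_algebraMap a)
      · exact ha
    have hanr : a ∉ Set.range (algebraMap κ Ω) := by
      rintro ⟨c, rfl⟩
      have := hta c
      omega
    -- `α` is regular
    let ψ : Ω →+* P.O := (algebraMap Ω N).codRestrict P.O P.reg_const
    let ψ' : κ[X] →+* P.O := eval₂RingHom (ψ.comp (algebraMap κ Ω)) ⟨t, htR⟩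
    have hαR : P.Reg α := by
      apply P.reg_of_isIntegral (A := P.O) (fun a => a.2)
      refine ⟨g.map ψ', hgm.map _, ?_⟩
      rw [eval₂_map]
      have e : (algebraMap P.O N).comp ψ' =
          eval₂RingHom ((algebraMap Ω N).comp (algebraMap κ Ω)) t := by
        apply ringHom_ext
        · intro c
          simp only [ψ', RingHom.comp_apply, coe_eval₂RingHom, eval₂_C]
          rfl
        · simp only [ψ', RingHom.comp_apply, coe_eval₂RingHom, eval₂_X]
          rfl
      rw [e]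
      exact hg
    obtain ⟨b, hb⟩ := hVAL Ω N P α hαR
    set G : Polynomial (Polynomial Ω) := g.map (mapRingHom (algebraMap κ Ω)) with hG
    have hGe : ev2 (algebraMap Ω N) t α G = 0 := by
      rw [hG, ev2_map]
      exact hg
    have hG0 : ev2 (RingHom.id Ω) a b G = 0 := ev_point P htR hαR (Or.inr ha0) hb G hGe
    have hgab : ev2 (algebraMap κ Ω) a b g = 0 := by
      rw [hG, ev2_map] at hG0
      exact hG0
    have hder : ev2 (algebraMap κ Ω) a b (derivative g) ≠ 0 := by
      intro hz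
      have h2 := congrArg (eval₂RingHom (eval₂RingHom (algebraMap κ Ω) a) b) hAB
      rw [map_add, map_mul, map_mul] at h2
      have e1 : (eval₂RingHom (eval₂RingHom (algebraMap κ Ω) a) b) g = 0 := hgab
      have e2 : (eval₂RingHom (eval₂RingHom (algebraMap κ Ω) a) b) (derivative g) = 0 := hz
      rw [e1, e2, mul_zero, mul_zero, add_zero, coe_eval₂RingHom, eval₂_C, coe_eval₂RingHom] at h2
      exact hanr (alg_range hs0 h2.symm)
    have hU1 : (G.map (evalRingHom a)).eval b = 0 := by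
      rw [ev2_id]
      exact hG0
    have hU2 : ((G.map (evalRingHom a)).derivative).eval b ≠ 0 := by
      rw [derivative_map, ev2_id, hG, derivative_map, ev2_map]
      exact hder
    obtain ⟨hord, -⟩ := hUPL Ω N t α htr hadj G hGe a b hU1 hU2 P ha0 hb
    obtain ⟨j, hj1, hj2, hj3⟩ := hEXP Ω N P (t - algebraMap Ω N a) hord
    have hk := key hDEQ P δ' D hDc (t - algebraMap Ω N a) hord j hj1 hj2 d₀ d₁ h0 h1
    intro x hx
    by_cases hDx : D x = 0
    · exact Or.inl hDx
    · right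
      have hx0 : x ≠ 0 := by
        rintro rfl
        exact hDx hD0
      have hxo := hj3 x hx0
      have hxr := (P.reg_iff hx0).1 hx
      have hgx : Ge (j x) 0 := ge_of_order (by rw [hxo]; exact hxr)
      have hge : Ge (j (D x)) 0 := by
        rw [hk x]
        apply ge_add
        · exact ge_d0 δ' d₀ h0 hgx
        · have hDπ : j (D (t - algebraMap Ω N a)) = HahnSeries.C (-(δ a)) := by
            rw [map_sub, hDt, hDc, zero_sub, ← map_neg, hj1]
          have hg1 : Ge (j (D (t - algebraMap Ω N a))) 0 := by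
            rw [hDπ]
            intro n hn
            rw [HahnSeries.C_apply, HahnSeries.coeff_single_of_ne (by omega)]
          have h3 := ge_mul hg1 (ge_d1_zero d₁ h1 hgx)
          rwa [add_zero] at h3
      have h4 := order_ge ((map_ne_zero j).2 hDx) hge
      rwa [hj3 _ hDx] at h4

end Pool.Agent.Helper72.RG.EST
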